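import Pool.Agent.H80.EQ.Noeth

set_option autoImplicit false

namespace Pool.Agent.Results.MP_de9e11_lc.ParametricLanguages

open Pool.Agent.H80.EQ

/-- A language is parametrizable if it is contained in a finite union of sets
`{W(k) : k ∈ ℕ^n}` with `W` a parametric word in `n` exponent variables. -/
def Parametrizable {A : Type} (L : Set (FreeMonoid A)) : Prop :=
  ∃ (n : ℕ) (F : Set (PWord A (Fin n))), F.Finite ∧
    ∀ x ∈ L, ∃ W ∈ F, ∃ k : Fin n → ℕ, W.eval k = x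

theorem result (A : Type) [Finite A] (L : Set (FreeMonoid A)) (hL : Parametrizable L)
    (S : Set ((FreeMonoid A →* FreeMonoid A) × (FreeMonoid A →* FreeMonoid A))) :
    ∃ T : Set ((FreeMonoid A →* FreeMonoid A) × (FreeMonoid A →* FreeMonoid A)),
      T.Finite ∧ T ⊆ S ∧
        L ∩ (⋂ p ∈ T, {x : FreeMonoid A | p.1 x = p.2 x}) =
          L ∩ ⋂ p ∈ S, {x : FreeMonoid A | p.1 x = p.2 x} := by
  classical
  haveI : Fintype A := Fintype.ofFinite A
  obtain ⟨n, F, hF, hLF⟩ := hL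
  by_contra hcon
  push Not at hcon
  -- a bad sequence
  have h1 : ∃ f : ℕ → ((FreeMonoid A →* FreeMonoid A) × (FreeMonoid A →* FreeMonoid A)) ×
      (PWord A (Fin n) × (Fin n → ℕ)),
      (∀ m, (f m).1 ∈ S ∧ (f m).2.1 ∈ F ∧
        (f m).1.1 ((f m).2.1.eval (f m).2.2) ≠ (f m).1.2 ((f m).2.1.eval (f m).2.2)) ∧
      ∀ m m', m < m' →
        (f m).1.1 ((f m').2.1.eval (f m').2.2) = (f m).1.2 ((f m').2.1.eval (f m').2.2) := by
    obtain ⟨f, hf1, hf2⟩ := exists_seq_of_forall_finset_exists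
      (P := fun y : ((FreeMonoid A →* FreeMonoid A) × (FreeMonoid A →* FreeMonoid A)) ×
        (PWord A (Fin n) × (Fin n → ℕ)) => y.1 ∈ S ∧ y.2.1 ∈ F ∧
          y.1.1 (y.2.1.eval y.2.2) ≠ y.1.2 (y.2.1.eval y.2.2))
      (r := fun y z => y.1.1 (z.2.1.eval z.2.2) = y.1.2 (z.2.1.eval z.2.2)) (by
        intro s hs
        let T : Set ((FreeMonoid A →* FreeMonoid A) × (FreeMonoid A →* FreeMonoid A)) :=
          (fun y : ((FreeMonoid A →* FreeMonoid A) × (FreeMonoid A →* FreeMonoid A)) ×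
            (PWord A (Fin n) × (Fin n → ℕ)) => y.1) '' (s : Set _)
        have hTfin : T.Finite := s.finite_toSet.image _
        have hTS : T ⊆ S := by
          rintro p ⟨y, hy, rfl⟩
          exact (hs y hy).1
        have hne := hcon T hTfin hTS
        have hex : ∃ x ∈ L, (∀ p ∈ T, p.1 x = p.2 x) ∧ ∃ p ∈ S, p.1 x ≠ p.2 x := by
          by_contra hno
          apply hne
          ext x
          simp only [Set.mem_inter_iff, Set.mem_iInter, Set.mem_setOf_eq]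
          constructor
          · rintro ⟨hx, hT⟩
            refine ⟨hx, fun p hp => ?_⟩
            by_contra hpx
            exact hno ⟨x, hx, hT, p, hp, hpx⟩
          · rintro ⟨hx, hS⟩
            exact ⟨hx, fun p hp => hS p (hTS hp)⟩
        obtain ⟨x, hx, hT, p, hp, hpx⟩ := hex
        obtain ⟨W, hW, k, rfl⟩ := hLF x hx
        refine ⟨(p, W, k), ⟨hp, hW, hpx⟩, ?_⟩
        intro y hy
        exact hT y.1 ⟨y, hy, rfl⟩)
    exact ⟨f, hf1, hf2⟩
  obtain ⟨f, hf1, hf2⟩ := h1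
  -- same parametric word and same zero set infinitely often
  haveI : Finite F := hF
  let col : ℕ → F × Set (Fin n) := fun m => (⟨(f m).2.1, (hf1 m).2.1⟩, {i | (f m).2.2 i = 0})
  obtain ⟨⟨⟨W, hW⟩, Z⟩, hWZ⟩ := Finite.exists_infinite_fiber col
  have hJinf : (col ⁻¹' {(⟨W, hW⟩, Z)}).Infinite := Set.infinite_coe_iff.mp hWZ
  set J : Set ℕ := col ⁻¹' {(⟨W, hW⟩, Z)} with hJ
  have hJW : ∀ m ∈ J, (f m).2.1 = W := by
    intro m hm
    have : col m = (⟨W, hW⟩, Z) := hm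
    have := congrArg (fun c => (c.1 : PWord A (Fin n))) this
    exact this
  have hJZ : ∀ m ∈ J, (f m).2.2 ∈ Dom Z := by
    intro m hm i
    have : col m = (⟨W, hW⟩, Z) := hm
    have := congrArg Prod.snd this
    simp only [col] at this
    rw [← this]
    simp
  obtain ⟨J0, hJ0J, hJ0inf, hJ0⟩ := exists_homog (fun m => (f m).2.2) J hJinf
  obtain ⟨i, hi⟩ := hJ0inf.nonempty
  obtain ⟨P1, Q1, hPQ1⟩ := exists_frac Z (f i).1.1 W
  obtain ⟨P2, Q2, hPQ2⟩ := exists_frac Z (f i).1.2 W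
  have hb : (1 : ℚ) < (bs A : ℚ) := by exact_mod_cast (one_lt_bs (B := A))
  have hzero : ∀ j ∈ J0 \ Set.Iic i, ev (bs A : ℚ) ((f j).2.2) (P1 * Q2 - P2 * Q1) = 0 := by
    rintro j ⟨hj, hij⟩
    have hij' : i < j := not_le.mp hij
    have h := hf2 i j hij'
    rw [hJW j (hJ0J hj)] at h
    have hk := hJZ j (hJ0J hj)
    obtain ⟨-, a1⟩ := hPQ1 _ hk
    obtain ⟨-, a2⟩ := hPQ2 _ hk
    rw [map_sub, map_mul, map_mul, ← a1, ← a2, h]
    ring
  have hfin := ev_vanish (bs A : ℚ) hb (fun m => (f m).2.2) J0 hJ0 (P1 * Q2 - P2 * Q1)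
    (J0 \ Set.Iic i) Set.diff_subset (hJ0inf.sdiff (Set.finite_Iic i)) hzero i hi
  have hk := hJZ i (hJ0J hi)
  obtain ⟨b1, a1⟩ := hPQ1 _ hk
  obtain ⟨b2, a2⟩ := hPQ2 _ hk
  apply (hf1 i).2.2
  rw [hJW i (hJ0J hi)]
  apply nu_injective
  have : ((nu ((f i).1.1 (W.eval (f i).2.2)) : ℚ) - nu ((f i).1.2 (W.eval (f i).2.2))) *
      (ev (bs A : ℚ) ((f i).2.2) Q1 * ev (bs A : ℚ) ((f i).2.2) Q2) = 0 := by
    rw [map_sub, map_mul, map_mul, ← a1, ← a2] at hfin
    linear_combination hfin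
  rcases mul_eq_zero.mp this with h | h
  · have : (nu ((f i).1.1 (W.eval (f i).2.2)) : ℚ) = nu ((f i).1.2 (W.eval (f i).2.2)) := by
      linarith
    exact_mod_cast this
  · exact absurd h (mul_ne_zero b1 b2)

end Pool.Agent.Results.MP_de9e11_lc.ParametricLanguages
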